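import Pool.Agent.H20.QL.Defs

/-!
# Project UQL, module UNIF: uniform integrability
-/

set_option autoImplicit false
open Finset Matrix

namespace Pool.Agent.H51.QL

open Pool.Agent.H20.QL

section

variable {V : Type} [Fintype V] [DecidableEq V]

omit [DecidableEq V] in
theorem sum_sq_eq {k : ℕ} (b : Fin k → V → ℝ) : ∑ y, sq b y = ∑ i, b i ⬝ᵥ b i := by
  unfold Pool.Agent.H20.QL.sq dotProduct
  rw [Finset.sum_comm]
  simp only [pow_two]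

theorem sq_bound (hB : PolyBoundStmt) {T : Matrix V V ℝ} (h1 : T.IsSymm)
    (h2 : ∀ u : V → ℝ, 0 ≤ u ⬝ᵥ (T *ᵥ u)) (h3 : ∀ u : V → ℝ, u ⬝ᵥ (T *ᵥ u) ≤ u ⬝ᵥ u)
    (p : Polynomial ℝ) (C : ℝ) (hC : ∀ t ∈ Set.Icc (0 : ℝ) 1, |p.eval t| ≤ C) {k : ℕ}
    (b : Fin k → V → ℝ) :
    ∑ y, sq (fun i => (Polynomial.aeval T p) *ᵥ b i) y ≤ C ^ 2 * ∑ y, sq b y := by
  rw [sum_sq_eq, sum_sq_eq, Finset.mul_sum]
  exact Finset.sum_le_sum fun i _ => hB V T h1 h2 h3 p C hC (b i)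

omit [Fintype V] [DecidableEq V] in
theorem sq_nonneg' {k : ℕ} (a : Fin k → V → ℝ) (x : V) : 0 ≤ sq a x :=
  Finset.sum_nonneg fun _ _ => sq_nonneg _

omit [Fintype V] [DecidableEq V] in
theorem pr_sq_le {k : ℕ} (ε : V → Fin k → Bool) (a : Fin k → V → ℝ) (x : V) :
    pr ε a x ^ 2 ≤ k * sq a x := by
  unfold pr Pool.Agent.H20.QL.sq
  refine (Finset.sum_mul_sq_le_sq_mul_sq _ _ _).trans (le_of_eq ?_)
  have h : ∀ i : Fin k, sg (ε x i) ^ 2 = 1 := by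
    intro i
    unfold sg
    split_ifs <;> norm_num
  simp [h]

omit [Fintype V] [DecidableEq V] in
open Classical in
/-- dyadic decomposition at one point -/
theorem dyadic {k : ℕ} (ε : V → Fin k → Bool) (a : Fin k → V → ℝ) (x : V) (L : ℕ)
    (hL : (2 : ℝ) ^ L * sq a x ≤ pr ε a x ^ 2) :
    pr ε a x ^ 2 ≤ ∑ l ∈ Finset.Icc L (Nat.log 2 k), (2 : ℝ) ^ (l + 1) *
      (if (2 : ℝ) ^ l * sq a x ≤ pr ε a x ^ 2 then sq a x else 0) := by
  have hnn : ∀ l ∈ Finset.Icc L (Nat.log 2 k), (0 : ℝ) ≤ (2 : ℝ) ^ (l + 1) *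
      (if (2 : ℝ) ^ l * sq a x ≤ pr ε a x ^ 2 then sq a x else 0) := by
    intro l _
    have := sq_nonneg' a x
    split_ifs <;> positivity
  rcases (sq_nonneg' a x).eq_or_lt with h0 | h0
  · have h1 := pr_sq_le ε a x
    rw [← h0, mul_zero] at h1
    exact h1.trans (Finset.sum_nonneg hnn)
  · have h1 : (1 : ℝ) ≤ pr ε a x ^ 2 / sq a x := by
      rw [le_div_iff₀ h0]
      refine le_trans ?_ hL
      exact mul_le_mul_of_nonneg_right (one_le_pow₀ (by norm_num)) h0.le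
    obtain ⟨n, hn1, hn2⟩ := exists_nat_pow_near h1 (by norm_num : (1 : ℝ) < 2)
    rw [le_div_iff₀ h0] at hn1
    rw [div_lt_iff₀ h0] at hn2
    have hLn : L ≤ n := by
      by_contra hcon
      have h2 : (2 : ℝ) ^ (n + 1) ≤ 2 ^ L := pow_le_pow_right₀ (by norm_num) (by omega)
      have h3 : (2 : ℝ) ^ (n + 1) * sq a x ≤ 2 ^ L * sq a x := mul_le_mul_of_nonneg_right h2 h0.le
      linarith
    have hnk : n ≤ Nat.log 2 k := by
      have h2 : (2 : ℝ) ^ n * sq a x ≤ k * sq a x := hn1.trans (pr_sq_le ε a x)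
      have h3 : (2 : ℝ) ^ n ≤ k := le_of_mul_le_mul_right h2 h0
      have h4 : 2 ^ n ≤ k := by exact_mod_cast h3
      exact Nat.le_log_of_pow_le (by norm_num) h4
    refine hn2.le.trans ?_
    have h5 := Finset.single_le_sum hnn (Finset.mem_Icc.mpr ⟨hLn, hnk⟩)
    refine le_trans (le_of_eq ?_) h5
    rw [if_pos hn1]

end

theorem geom_quarter (L n : ℕ) : ∑ l ∈ Finset.Icc L n, (1 / 4 : ℝ) ^ l ≤ 2 * (1 / 4 : ℝ) ^ L := by
  have h : ∀ m, L ≤ m → ∑ l ∈ Finset.Ico L m, (1 / 4 : ℝ) ^ l ≤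
      2 * (1 / 4 : ℝ) ^ L - 2 * (1 / 4 : ℝ) ^ m := by
    intro m hm
    induction m, hm using Nat.le_induction with
    | base => simp
    | succ m hm ih =>
      rw [Finset.sum_Ico_succ_top hm, pow_succ]
      have : (0 : ℝ) ≤ (1 / 4 : ℝ) ^ m := by positivity
      linarith
  rcases Nat.lt_or_ge n L with h1 | h1
  · rw [Finset.Icc_eq_empty (by omega), Finset.sum_empty]
    positivity
  · have h2 := h (n + 1) (by omega)
    rw [show Finset.Icc L n = Finset.Ico L (n + 1) by ext; simp]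
    have : (0 : ℝ) ≤ (1 / 4 : ℝ) ^ (n + 1) := by positivity
    linarith

theorem geom_two (L n : ℕ) : ∑ l ∈ Finset.Icc L n, (2 : ℝ) ^ (l + 1) ≤ 4 * 2 ^ n := by
  have h : ∀ m, ∑ l ∈ Finset.range m, (2 : ℝ) ^ (l + 1) ≤ 2 * 2 ^ m := by
    intro m
    induction m with
    | zero => simp
    | succ m ih =>
      rw [Finset.sum_range_succ, pow_succ]
      linarith
  refine (Finset.sum_le_sum_of_subset_of_nonneg (t := Finset.range (n + 1)) ?_ ?_).trans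
    ((h (n + 1)).trans (by rw [pow_succ]; linarith))
  · intro l hl
    rw [Finset.mem_Icc] at hl
    rw [Finset.mem_range]
    omega
  · intro _ _ _
    positivity

/-- existence of `M` -/
theorem exists_M {θ : ℝ} (h0 : 0 ≤ θ) (h1 : θ < 1) : ∃ M : ℕ, 1 ≤ M ∧ θ ^ M ≤ 1 / 16 := by
  obtain ⟨n, hn⟩ := exists_pow_lt_of_lt_one (by norm_num : (0 : ℝ) < 1 / 16) h1
  refine ⟨n + 1, by omega, ?_⟩
  rw [pow_succ]
  have : 0 ≤ θ ^ n := by positivity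
  nlinarith

theorem exists_two_pow (C : ℝ) : ∃ m : ℕ, C ≤ (2 : ℝ) ^ m := by
  obtain ⟨n, hn⟩ := pow_unbounded_of_one_lt C (by norm_num : (1 : ℝ) < 2)
  exact ⟨n, hn.le⟩

/-- for large `k`: `k⁴ θ^k ≤ 1` -/
theorem ev_pow {θ : ℝ} (h0 : 0 ≤ θ) (h1 : θ < 1) :
    ∀ᶠ k : ℕ in Filter.atTop, (k : ℝ) ^ 4 * θ ^ k ≤ 1 := by
  have h := tendsto_pow_const_mul_const_pow_of_abs_lt_one 4 (r := θ)
    (by rw [abs_of_nonneg h0]; exact h1)
  exact (h.eventually (gt_mem_nhds (by norm_num : (0 : ℝ) < 1))).mono fun _ h => h.le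

/-- for large `k`: `M log₂ k ≤ k` -/
theorem ev_log (M : ℕ) : ∀ᶠ k : ℕ in Filter.atTop, M * Nat.log 2 k ≤ k := by
  have h := tendsto_pow_const_div_const_pow_of_one_lt 1 (r := (2 : ℝ)) (by norm_num)
  have h2 : ∀ᶠ n : ℕ in Filter.atTop, (M : ℝ) * n ≤ 2 ^ n := by
    have h3 : ∀ᶠ n : ℕ in Filter.atTop, (n : ℝ) ^ 1 / 2 ^ n < 1 / (M + 1) :=
      h.eventually (gt_mem_nhds (by positivity))
    refine h3.mono fun n hn => ?_
    rw [pow_one, div_lt_div_iff₀ (by positivity) (by positivity), one_mul] at hn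
    have : (0 : ℝ) ≤ n := by positivity
    nlinarith
  rw [Filter.eventually_atTop] at h2 ⊢
  obtain ⟨N, hN⟩ := h2
  refine ⟨2 ^ N, fun k hk => ?_⟩
  have hk0 : k ≠ 0 := by
    have : 0 < 2 ^ N := by positivity
    omega
  have h3 : N ≤ Nat.log 2 k := Nat.le_log_of_pow_le (by norm_num) hk
  have h4 := hN _ h3
  have h5 : M * Nat.log 2 k ≤ 2 ^ Nat.log 2 k := by exact_mod_cast h4
  exact h5.trans (Nat.pow_log_le_self 2 hk0)

theorem aux_sixteen {l M' : ℕ} (hl : 1 ≤ l) :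
    (2 : ℝ) ^ (l + 1) * (4 * ((1 / 16 : ℝ) ^ l * (5 + 4 * (M' * l)))) ≤
      8 * (5 + 4 * M') * (1 / 4 : ℝ) ^ l := by
  have h1 : (1 : ℝ) ≤ l := by exact_mod_cast hl
  have h2 : (l : ℝ) ≤ 2 ^ l := by
    have := Nat.lt_two_pow_self (n := l)
    exact_mod_cast this.le
  have h3 : (5 : ℝ) + 4 * (M' * l) ≤ (5 + 4 * M') * 2 ^ l := by
    have : (0 : ℝ) ≤ M' := by positivity
    nlinarith
  have e : (1 / 16 : ℝ) ^ l * 2 ^ l * 2 ^ l = (1 / 4 : ℝ) ^ l := by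
    rw [← mul_pow, ← mul_pow]
    norm_num
  calc (2 : ℝ) ^ (l + 1) * (4 * ((1 / 16 : ℝ) ^ l * (5 + 4 * (M' * l))))
      ≤ (2 : ℝ) ^ (l + 1) * (4 * ((1 / 16 : ℝ) ^ l * ((5 + 4 * M') * 2 ^ l))) := by gcongr
    _ = 8 * (5 + 4 * M') * ((1 / 16 : ℝ) ^ l * 2 ^ l * 2 ^ l) := by rw [pow_succ]; ring
    _ = _ := by rw [e]

/-- the coefficients at the level `l` -/
theorem coeff_one {Δ M M1 l : ℕ} {lam t0 : ℝ} (hlam : 0 ≤ lam) (ht0 : 0 < t0)
    (hM : (lam / t0 ^ 2) ^ M ≤ 1 / 16)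
    (hM1 : 16 * (Δ : ℝ) ^ M / t0 ^ (2 * M) ≤ 2 ^ M1) :
    ((Δ : ℝ) ^ (M * l) / 2 ^ (M1 * l) + 2 * lam ^ (M * l) * (2 * ((M1 * l : ℕ) : ℝ) + 2)) *
      (2 / t0 ^ (M * l)) ^ 2 ≤ 4 * ((1 / 16 : ℝ) ^ l * (5 + 4 * (M1 * l))) := by
  have h1 : (Δ : ℝ) ^ (M * l) / 2 ^ (M1 * l) / t0 ^ (2 * (M * l)) ≤ (1 / 16 : ℝ) ^ l := by
    have e : (Δ : ℝ) ^ (M * l) / 2 ^ (M1 * l) / t0 ^ (2 * (M * l)) =
        ((Δ : ℝ) ^ M / t0 ^ (2 * M) / 2 ^ M1) ^ l := by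
      rw [div_pow, div_pow, ← pow_mul, ← pow_mul, ← pow_mul, mul_assoc]
      ring
    rw [e]
    refine pow_le_pow_left₀ (by positivity) ?_ l
    rw [div_le_div_iff₀ (by positivity) (by norm_num)]
    calc (Δ : ℝ) ^ M / t0 ^ (2 * M) * 16 = 16 * (Δ : ℝ) ^ M / t0 ^ (2 * M) := by ring
      _ ≤ _ := by linarith
  have h2 : lam ^ (M * l) / t0 ^ (2 * (M * l)) ≤ (1 / 16 : ℝ) ^ l := by
    have e : lam ^ (M * l) / t0 ^ (2 * (M * l)) = ((lam / t0 ^ 2) ^ M) ^ l := by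
      rw [← pow_mul, div_pow, ← pow_mul]
    rw [e]
    exact pow_le_pow_left₀ (by positivity) hM l
  have e : ((Δ : ℝ) ^ (M * l) / 2 ^ (M1 * l) + 2 * lam ^ (M * l) * (2 * ((M1 * l : ℕ) : ℝ) + 2)) *
      (2 / t0 ^ (M * l)) ^ 2 = 4 * ((Δ : ℝ) ^ (M * l) / 2 ^ (M1 * l) / t0 ^ (2 * (M * l)) +
        (lam ^ (M * l) / t0 ^ (2 * (M * l))) * (4 * (M1 * l) + 4)) := by
    have h3 : t0 ^ (2 * (M * l)) = t0 ^ (M * l) * t0 ^ (M * l) := by rw [two_mul, pow_add]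
    rw [h3]
    push_cast
    field_simp
    ring
  rw [e]
  have h4 : (0 : ℝ) ≤ 4 * (M1 * l) + 4 := by positivity
  have h5 := mul_le_mul_of_nonneg_right h2 h4
  nlinarith

theorem coeff_two {Δ M2 k : ℕ} {t0 : ℝ} (ht0 : 0 < t0) (hk : 1 ≤ k)
    (hM2 : 8 * (Δ : ℝ) / t0 ^ 2 ≤ 2 ^ M2) :
    ((Δ : ℝ) ^ k / 2 ^ (M2 * k) + 2 * (t0 ^ (2 * k) / k ^ 3) * (2 * ((M2 * k : ℕ) : ℝ) + 2)) *
      (2 / t0 ^ k) ^ 2 ≤ 4 / k ^ 3 * ((5 + 4 * M2) * k) := by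
  have hk0 : (0 : ℝ) < k := by exact_mod_cast hk
  have hk1 : (1 : ℝ) ≤ k := by exact_mod_cast hk
  have h8 : (k : ℝ) ^ 3 ≤ 8 ^ k := by
    have h2 : (k : ℝ) ≤ 2 ^ k := by
      have := Nat.lt_two_pow_self (n := k)
      exact_mod_cast this.le
    calc (k : ℝ) ^ 3 ≤ (2 ^ k) ^ 3 := by gcongr
      _ = 8 ^ k := by rw [← pow_mul, mul_comm, pow_mul]; norm_num
  have h1 : (Δ : ℝ) ^ k / 2 ^ (M2 * k) / t0 ^ (2 * k) ≤ 1 / (k : ℝ) ^ 3 := by
    have e : (Δ : ℝ) ^ k / 2 ^ (M2 * k) / t0 ^ (2 * k) =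
        ((Δ : ℝ) / t0 ^ 2 / 2 ^ M2) ^ k := by
      rw [div_pow, div_pow, ← pow_mul, ← pow_mul]
      ring
    rw [e]
    calc ((Δ : ℝ) / t0 ^ 2 / 2 ^ M2) ^ k ≤ (1 / 8) ^ k := by
          refine pow_le_pow_left₀ (by positivity) ?_ k
          rw [div_le_div_iff₀ (by positivity) (by norm_num)]
          calc (Δ : ℝ) / t0 ^ 2 * 8 = 8 * (Δ : ℝ) / t0 ^ 2 := by ring
            _ ≤ _ := by linarith
      _ = 1 / 8 ^ k := by rw [_root_.one_div_pow]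
      _ ≤ _ := one_div_le_one_div_of_le (by positivity) h8
  have e : ((Δ : ℝ) ^ k / 2 ^ (M2 * k) + 2 * (t0 ^ (2 * k) / k ^ 3) *
      (2 * ((M2 * k : ℕ) : ℝ) + 2)) * (2 / t0 ^ k) ^ 2 =
      4 * ((Δ : ℝ) ^ k / 2 ^ (M2 * k) / t0 ^ (2 * k) + 1 / (k : ℝ) ^ 3 * (4 * (M2 * k) + 4)) := by
    have h3 : t0 ^ (2 * k) = t0 ^ k * t0 ^ k := by rw [two_mul, pow_add]
    rw [h3]
    push_cast
    field_simp
    ring
  rw [e]
  have h6 : (5 : ℝ) + 4 * (M2 * k) ≤ (5 + 4 * M2) * k := by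
    have : (0 : ℝ) ≤ M2 := by positivity
    nlinarith
  have h7 : (0 : ℝ) < 1 / (k : ℝ) ^ 3 := by positivity
  calc 4 * ((Δ : ℝ) ^ k / 2 ^ (M2 * k) / t0 ^ (2 * k) + 1 / (k : ℝ) ^ 3 * (4 * (M2 * k) + 4))
      ≤ 4 * (1 / (k : ℝ) ^ 3 + 1 / (k : ℝ) ^ 3 * (4 * (M2 * k) + 4)) := by linarith
    _ = 4 / (k : ℝ) ^ 3 * (5 + 4 * ((M2 : ℝ) * k)) := by ring
    _ ≤ _ := mul_le_mul_of_nonneg_left h6 (by positivity)

theorem unif (hE : GoodStmt) (hH : LevelStmt) (hP : PolyStmt) (_hT : PowersStmt)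
    (hB : PolyBoundStmt) : UnifStmt := by
  intro Δ lam t0 hlam ht0 ht1 hlt
  have ht02 : 0 < t0 ^ 2 := by positivity
  have ht02' : t0 ^ 2 < 1 := by nlinarith
  have hlam1 : lam ≤ 1 := by linarith
  have hθ0 : 0 ≤ lam / t0 ^ 2 := by positivity
  have hθ1 : lam / t0 ^ 2 < 1 := by rwa [div_lt_one ht02]
  obtain ⟨M, hMpos, hM⟩ := exists_M hθ0 hθ1
  obtain ⟨l0, hl0⟩ := hE Δ M
  obtain ⟨M1, hM1⟩ := exists_two_pow (16 * (Δ : ℝ) ^ M / t0 ^ (2 * M))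
  obtain ⟨M2, hM2⟩ := exists_two_pow (8 * (Δ : ℝ) / t0 ^ 2)
  refine ⟨max l0 1, fun n => 16 * (5 + 4 * M1) * (1 / 4 : ℝ) ^ n + 16 * (5 + 4 * M2) / n,
    fun n => by positivity, ?_, ?_⟩
  · have h1 : Filter.Tendsto (fun n : ℕ => 16 * (5 + 4 * (M1 : ℝ)) * (1 / 4 : ℝ) ^ n) Filter.atTop
        (nhds 0) := by
      have := (tendsto_pow_atTop_nhds_zero_of_lt_one (r := (1 / 4 : ℝ)) (by norm_num)
        (by norm_num)).const_mul (16 * (5 + 4 * (M1 : ℝ)))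
      simpa using this
    have h2 := tendsto_const_div_atTop_nhds_zero_nat (16 * (5 + 4 * (M2 : ℝ)))
    simpa using h1.add h2
  filter_upwards [ev_pow hθ0 hθ1, ev_log M, Filter.eventually_ge_atTop 2] with k hk1 hk2 hk3
  refine ⟨2 * (M * Nat.log 2 k) * k + M * Nat.log 2 k + k, ?_⟩
  intro V _ _ nb T hK
  have hkpos : (0 : ℝ) < k := by positivity
  have hk1' : (1 : ℝ) ≤ k := by exact_mod_cast (by omega : 1 ≤ k)
  have hκ : 0 < t0 ^ (2 * k) / (k : ℝ) ^ 3 := by positivity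
  have hkκ : (k : ℝ) * lam ^ k ≤ t0 ^ (2 * k) / (k : ℝ) ^ 3 := by
    rw [le_div_iff₀ (by positivity)]
    rw [div_pow, ← pow_mul, ← mul_div_assoc, div_le_one (by positivity)] at hk1
    calc (k : ℝ) * lam ^ k * k ^ 3 = k ^ 4 * lam ^ k := by ring
      _ ≤ _ := hk1
  obtain ⟨q, hq1, hq2⟩ := (hP t0 ht0 ht1).2 k (1 / k) (by positivity)
  obtain ⟨ε, hε⟩ := hl0 (Nat.log 2 k) k k (2 * (M * Nat.log 2 k) * k + M * Nat.log 2 k + k) lam
    (t0 ^ (2 * k) / (k : ℝ) ^ 3) V nb T hK hlam (by omega) hκ hkκ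
  refine ⟨Polynomial.X ^ k * q, ε, ⟨?_, ?_, ?_⟩⟩
  · intro t ht
    simpa using hq2 t ht
  · intro t ht
    simpa using hq1 t ht 0 (Nat.zero_le _)
  intro L hL b a ha
  classical
  have hB0 : 0 ≤ ∑ y, sq b y := Finset.sum_nonneg fun y _ => sq_nonneg' b y
  have hlev : ∀ l ∈ Finset.Icc L (Nat.log 2 k),
      ∑ x ∈ univ.filter (fun x => 2 ^ l * sq a x ≤ pr ε a x ^ 2), sq a x ≤
        (4 * ((1 / 16 : ℝ) ^ l * (5 + 4 * (M1 * l))) + 4 / k ^ 3 * ((5 + 4 * M2) * k)) *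
          ∑ y, sq b y := by
    intro l hl
    rw [Finset.mem_Icc] at hl
    have hl1 : 1 ≤ l := by omega
    have hl0' : l0 ≤ l := by omega
    have hρ : M * l ≤ M * Nat.log 2 k := Nat.mul_le_mul_left M hl.2
    have hρk : M * l ≤ k := hρ.trans hk2
    have hD : 2 * (M * l) * k + M * l ≤ 2 * (M * Nat.log 2 k) * k + M * Nat.log 2 k + k := by
      have : 2 * (M * l) * k ≤ 2 * (M * Nat.log 2 k) * k := by gcongr
      omega
    have hc1 : 2 * lam ^ (M * l) * (Δ : ℝ) ^ (M * l) ≤ 2 ^ (M1 * l) := by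
      have h1 : lam ^ (M * l) ≤ 1 := pow_le_one₀ hlam hlam1
      have h2 : (2 : ℝ) ≤ 16 ^ l := by
        calc (2 : ℝ) ≤ 16 ^ 1 := by norm_num
          _ ≤ 16 ^ l := pow_le_pow_right₀ (by norm_num) hl1
      have h3 : (16 * (Δ : ℝ) ^ M) ^ l ≤ 2 ^ (M1 * l) := by
        rw [pow_mul]
        refine pow_le_pow_left₀ (by positivity) (le_trans ?_ hM1) l
        rw [le_div_iff₀ (by positivity)]
        have : t0 ^ (2 * M) ≤ 1 := pow_le_one₀ ht0.le ht1.le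
        have h4 : (0 : ℝ) ≤ 16 * (Δ : ℝ) ^ M := by positivity
        nlinarith
      calc 2 * lam ^ (M * l) * (Δ : ℝ) ^ (M * l) ≤ 16 ^ l * 1 * (Δ : ℝ) ^ (M * l) := by gcongr
        _ = (16 * (Δ : ℝ) ^ M) ^ l := by rw [mul_pow, ← pow_mul]; ring
        _ ≤ _ := h3
    have hc2 : 2 * (t0 ^ (2 * k) / (k : ℝ) ^ 3) * (Δ : ℝ) ^ k ≤ 2 ^ (M2 * k) := by
      have h1 : t0 ^ (2 * k) ≤ 1 := pow_le_one₀ ht0.le ht1.le
      have h2 : 2 * (t0 ^ (2 * k) / (k : ℝ) ^ 3) ≤ 1 := by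
        have h3 : (2 : ℝ) ≤ (k : ℝ) ^ 3 := by
          have : (2 : ℝ) ≤ k := by exact_mod_cast hk3
          nlinarith [sq_nonneg ((k : ℝ) - 2), mul_pos hkpos hkpos]
        rw [← mul_div_assoc, div_le_one (by positivity)]
        linarith
      have h3 : (8 * (Δ : ℝ)) ^ k ≤ 2 ^ (M2 * k) := by
        rw [pow_mul]
        refine pow_le_pow_left₀ (by positivity) (le_trans ?_ hM2) k
        rw [le_div_iff₀ ht02]
        have h4 : (0 : ℝ) ≤ 8 * (Δ : ℝ) := by positivity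
        nlinarith
      calc 2 * (t0 ^ (2 * k) / (k : ℝ) ^ 3) * (Δ : ℝ) ^ k ≤ 1 * (Δ : ℝ) ^ k := by gcongr
        _ ≤ 1 * (8 * (Δ : ℝ)) ^ k := by
            gcongr
            have : (0 : ℝ) ≤ Δ := by positivity
            linarith
        _ ≤ _ := by rw [one_mul]; exact h3
    have hmain := hH V nb Δ (2 * (M * Nat.log 2 k) * k + M * Nat.log 2 k + k) lam T hK hlam hlam1
      k l (M * l) k (M1 * l) (M2 * k) (t0 ^ (2 * k) / (k : ℝ) ^ 3) hκ (by omega) hD (by omega)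
      hc1 hc2 ε (hε l hl0' hl.2) a
      (fun i => (Polynomial.aeval T (Polynomial.X ^ (k - M * l) * q)) *ᵥ b i)
      (fun i => (Polynomial.aeval T q) *ᵥ b i)
      (fun i => by
        rw [ha i, Matrix.mulVec_mulVec]
        simp only [map_mul, map_pow, Polynomial.aeval_X]
        rw [← mul_assoc, ← pow_add, Nat.add_sub_cancel' hρk])
      (fun i => by
        rw [ha i, Matrix.mulVec_mulVec]
        simp only [map_mul, map_pow, Polynomial.aeval_X])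
    have hb1 := sq_bound hB hK.tsymm hK.nonneg hK.le_one (Polynomial.X ^ (k - M * l) * q)
      (2 / t0 ^ (M * l)) (fun t ht => by simpa using hq1 t ht (M * l) hρk) b
    have hb2 := sq_bound hB hK.tsymm hK.nonneg hK.le_one q
      (2 / t0 ^ k) (fun t ht => by simpa using hq1 t ht k le_rfl) b
    have hco1 := coeff_one (Δ := Δ) (l := l) hlam ht0 hM hM1
    have hco2 := coeff_two (Δ := Δ) (k := k) ht0 (by omega) hM2
    refine hmain.trans ?_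
    have hn1 : (0 : ℝ) ≤ (Δ : ℝ) ^ (M * l) / 2 ^ (M1 * l) +
        2 * lam ^ (M * l) * (2 * ((M1 * l : ℕ) : ℝ) + 2) := by positivity
    have hn2 : (0 : ℝ) ≤ (Δ : ℝ) ^ k / 2 ^ (M2 * k) +
        2 * (t0 ^ (2 * k) / (k : ℝ) ^ 3) * (2 * ((M2 * k : ℕ) : ℝ) + 2) := by positivity
    rw [add_mul (4 * ((1 / 16 : ℝ) ^ l * (5 + 4 * (M1 * l))))]
    refine add_le_add ?_ ?_
    · refine (mul_le_mul_of_nonneg_left hb1 hn1).trans ?_
      rw [← mul_assoc]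
      exact mul_le_mul_of_nonneg_right hco1 hB0
    · refine (mul_le_mul_of_nonneg_left hb2 hn2).trans ?_
      rw [← mul_assoc]
      exact mul_le_mul_of_nonneg_right hco2 hB0
  have hsum : ∑ x ∈ univ.filter (fun x => 2 ^ L * sq a x ≤ pr ε a x ^ 2), pr ε a x ^ 2 ≤
      ∑ l ∈ Finset.Icc L (Nat.log 2 k), (2 : ℝ) ^ (l + 1) *
        ∑ x ∈ univ.filter (fun x => 2 ^ l * sq a x ≤ pr ε a x ^ 2), sq a x := by
    calc ∑ x ∈ univ.filter (fun x => 2 ^ L * sq a x ≤ pr ε a x ^ 2), pr ε a x ^ 2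
        ≤ ∑ x ∈ univ.filter (fun x => 2 ^ L * sq a x ≤ pr ε a x ^ 2),
          ∑ l ∈ Finset.Icc L (Nat.log 2 k), (2 : ℝ) ^ (l + 1) *
            (if (2 : ℝ) ^ l * sq a x ≤ pr ε a x ^ 2 then sq a x else 0) :=
          Finset.sum_le_sum fun x hx => dyadic ε a x L (Finset.mem_filter.mp hx).2
      _ ≤ ∑ x, ∑ l ∈ Finset.Icc L (Nat.log 2 k), (2 : ℝ) ^ (l + 1) *
            (if (2 : ℝ) ^ l * sq a x ≤ pr ε a x ^ 2 then sq a x else 0) := by
          refine Finset.sum_le_sum_of_subset_of_nonneg (Finset.filter_subset _ _) ?_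
          intro x _ _
          refine Finset.sum_nonneg fun l _ => ?_
          have := sq_nonneg' a x
          split_ifs <;> positivity
      _ = _ := by
          rw [Finset.sum_comm]
          refine Finset.sum_congr rfl fun l _ => ?_
          rw [← Finset.mul_sum, Finset.sum_filter]
  have hlogk : (2 : ℝ) ^ Nat.log 2 k ≤ k := by
    have := Nat.pow_log_le_self 2 (x := k) (by omega)
    exact_mod_cast this
  calc ∑ x ∈ univ.filter (fun x => 2 ^ L * sq a x ≤ pr ε a x ^ 2), pr ε a x ^ 2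
      ≤ ∑ l ∈ Finset.Icc L (Nat.log 2 k), (2 : ℝ) ^ (l + 1) *
        ((4 * ((1 / 16 : ℝ) ^ l * (5 + 4 * (M1 * l))) + 4 / k ^ 3 * ((5 + 4 * M2) * k)) *
          ∑ y, sq b y) := hsum.trans (Finset.sum_le_sum fun l hl =>
            mul_le_mul_of_nonneg_left (hlev l hl) (by positivity))
    _ = (∑ l ∈ Finset.Icc L (Nat.log 2 k), ((2 : ℝ) ^ (l + 1) *
          (4 * ((1 / 16 : ℝ) ^ l * (5 + 4 * (M1 * l)))) +
          2 ^ (l + 1) * (4 / k ^ 3 * ((5 + 4 * M2) * k)))) * ∑ y, sq b y := by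
        rw [Finset.sum_mul]
        refine Finset.sum_congr rfl fun l _ => ?_
        ring
    _ ≤ (16 * (5 + 4 * M1) * (1 / 4 : ℝ) ^ L + 16 * (5 + 4 * M2) / k) * ∑ y, sq b y := by
        refine mul_le_mul_of_nonneg_right ?_ hB0
        rw [Finset.sum_add_distrib, ← Finset.sum_mul]
        refine add_le_add ?_ ?_
        · calc ∑ l ∈ Finset.Icc L (Nat.log 2 k), (2 : ℝ) ^ (l + 1) *
                (4 * ((1 / 16 : ℝ) ^ l * (5 + 4 * (M1 * l))))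
              ≤ ∑ l ∈ Finset.Icc L (Nat.log 2 k), 8 * (5 + 4 * M1) * (1 / 4 : ℝ) ^ l :=
                Finset.sum_le_sum fun l hl => aux_sixteen (by
                  rw [Finset.mem_Icc] at hl
                  omega)
            _ = 8 * (5 + 4 * M1) * ∑ l ∈ Finset.Icc L (Nat.log 2 k), (1 / 4 : ℝ) ^ l := by
                rw [Finset.mul_sum]
            _ ≤ 8 * (5 + 4 * M1) * (2 * (1 / 4 : ℝ) ^ L) :=
                mul_le_mul_of_nonneg_left (geom_quarter _ _) (by positivity)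
            _ = _ := by ring
        · calc (∑ l ∈ Finset.Icc L (Nat.log 2 k), (2 : ℝ) ^ (l + 1)) *
                (4 / k ^ 3 * ((5 + 4 * M2) * k))
              ≤ (4 * 2 ^ Nat.log 2 k) * (4 / k ^ 3 * ((5 + 4 * M2) * k)) :=
                mul_le_mul_of_nonneg_right (geom_two _ _) (by positivity)
            _ ≤ (4 * k) * (4 / k ^ 3 * ((5 + 4 * M2) * k)) := by gcongr
            _ = _ := by
                field_simp
                ring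
    _ ≤ ((16 * (5 + 4 * M1) * (1 / 4 : ℝ) ^ L + 16 * (5 + 4 * M2) / L) +
          (16 * (5 + 4 * M1) * (1 / 4 : ℝ) ^ k + 16 * (5 + 4 * M2) / k)) * ∑ y, sq b y := by
        refine mul_le_mul_of_nonneg_right ?_ hB0
        have h1 : (0 : ℝ) ≤ 16 * (5 + 4 * M2) / L := by positivity
        have h2 : (0 : ℝ) ≤ 16 * (5 + 4 * M1) * (1 / 4 : ℝ) ^ k := by positivity
        linarith

end Pool.Agent.H51.QL
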